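import Pool.Agent.H93.BD.Targets

/-!
Local constancy on balls (row RPB of `bdc_modules`).
-/

set_option autoImplicit false

open MeasureTheory
open scoped ENNReal NNReal

namespace Pool.Agent.H1.BD

open Pool.Agent.H93.BD

theorem gw_scale (m N : ℕ) (S D : ℝ) (hS : 0 < S) (hD : 1 ≤ D) (c : E m) (x : X m) :
    gw m N (S / D) (S / D) c x ≤ ENNReal.ofReal (D ^ (m + 1)) * gw m N S S c x := by
  have hD0 : 0 < D := lt_of_lt_of_le one_pos hD
  unfold gw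
  rw [← ENNReal.ofReal_mul (by positivity)]
  refine ENNReal.ofReal_le_ofReal ?_
  have h1 : ((S / D) ^ m * (S / D))⁻¹ = D ^ (m + 1) * (S ^ m * S)⁻¹ := by
    rw [div_pow]
    field_simp
    ring
  have h2 : ∀ t : ℝ, 0 ≤ t → ((1 + t / (S / D)) ^ N)⁻¹ ≤ ((1 + t / S) ^ N)⁻¹ := by
    intro t ht
    have h3 : t / S ≤ t / (S / D) := by
      refine div_le_div_of_nonneg_left ht (by positivity) ?_
      exact div_le_self hS.le hD
    have h4 : 0 ≤ t / S := by positivity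
    gcongr
  rw [h1]
  have e1 := h2 ‖x.1 + (2 * x.2) • c‖ (norm_nonneg _)
  have e2 := h2 |x.2| (abs_nonneg _)
  have p1 : 0 ≤ ((1 + ‖x.1 + (2 * x.2) • c‖ / (S / D)) ^ N)⁻¹ := by positivity
  have p2 : 0 ≤ ((1 + |x.2| / (S / D)) ^ N)⁻¹ := by positivity
  calc D ^ (m + 1) * (S ^ m * S)⁻¹ * ((1 + ‖x.1 + (2 * x.2) • c‖ / (S / D)) ^ N)⁻¹ *
        ((1 + |x.2| / (S / D)) ^ N)⁻¹
      ≤ D ^ (m + 1) * (S ^ m * S)⁻¹ * ((1 + ‖x.1 + (2 * x.2) • c‖ / S) ^ N)⁻¹ *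
        ((1 + |x.2| / S) ^ N)⁻¹ := by
        refine mul_le_mul (mul_le_mul_of_nonneg_left e1 (by positivity)) e2 p2 ?_
        positivity
    _ = D ^ (m + 1) * ((S ^ m * S)⁻¹ * ((1 + ‖x.1 + (2 * x.2) • c‖ / S) ^ N)⁻¹ *
        ((1 + |x.2| / S) ^ N)⁻¹) := by ring

theorem cv_scale {m : ℕ} (u k k' : X m → ℝ≥0∞) (a : ℝ≥0∞) (ha : a ≠ ⊤)
    (h : ∀ z, k z ≤ a * k' z) (x : X m) : cv u k x ≤ a * cv u k' x := by
  unfold cv
  rw [← lintegral_const_mul' _ _ ha]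
  refine lintegral_mono fun z => ?_
  calc u z * k (x - z) ≤ u z * (a * k' (x - z)) := mul_le_mul_right (h _) _
    _ = a * (u z * k' (x - z)) := by ring

theorem pf_RPB (hREP : T_REP) : T_RPB := by
  intro m q hq C0 R1
  obtain ⟨C', hC'⟩ := hREP m (m + 2) q hq
  obtain ⟨C1, hC1⟩ : ∃ C1 : ℝ, C1 = max C0 1 := ⟨_, rfl⟩
  obtain ⟨R, hR⟩ : ∃ R : ℝ, R = max R1 0 := ⟨_, rfl⟩
  have hC1' : 1 ≤ C1 := by rw [hC1]; exact le_max_right _ _
  have hC0 : C0 ≤ C1 := by rw [hC1]; exact le_max_left _ _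
  have hR0 : 0 ≤ R := by rw [hR]; exact le_max_right _ _
  have hR1 : R1 ≤ R := by rw [hR]; exact le_max_left _ _
  obtain ⟨D, hDd⟩ : ∃ D : ℝ, D = C1 * (1 + 2 * R + C1) := ⟨_, rfl⟩
  have hDC : C1 ≤ D := by
    rw [hDd]
    nlinarith
  have hD : 1 ≤ D := hC1'.trans hDC
  refine ⟨C' * D ^ (m + 1), fun S hS c hc g hg x => ?_⟩
  have hS0 : 0 < S := lt_of_lt_of_le one_pos hS
  have hD0 : 0 < D := lt_of_lt_of_le one_pos hD
  have h1 := hC' (S / D) (S / D) (by positivity) (by positivity) c 0 (‖c‖ ^ 2) g hg.int (by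
    intro z hz
    obtain ⟨h2, h3⟩ := hg.supp z hz
    have hi : 1 / (S / D) = D / S := by field_simp
    rw [hi]
    have h4 : ‖z.1 - c‖ ≤ C1 / S := by
      refine h2.trans ?_
      rw [mul_one_div]
      gcongr
    have h5 : |z.2 - ‖z.1‖ ^ 2| ≤ C1 / S := by
      refine h3.trans ?_
      have h6 : (1 / S) ^ 2 ≤ 1 / S := by
        rw [pow_two]
        refine mul_le_of_le_one_right (by positivity) ?_
        rw [div_le_one hS0]
        exact hS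
      calc C0 * (1 / S) ^ 2 ≤ C1 * (1 / S) ^ 2 := by gcongr
        _ ≤ C1 * (1 / S) := by gcongr
        _ = C1 / S := by ring
    refine ⟨h4.trans (by gcongr), ?_⟩
    have h7 : ‖z.1‖ ≤ R + C1 := by
      have h8 : ‖z.1‖ ≤ ‖c‖ + ‖z.1 - c‖ := by
        have := norm_add_le c (z.1 - c)
        rwa [add_sub_cancel] at this
      have h9 : C1 / S ≤ C1 := div_le_self (by linarith) hS
      linarith
    have h10 : |‖z.1‖ ^ 2 - ‖c‖ ^ 2| ≤ C1 / S * (2 * R + C1) := by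
      have e : ‖z.1‖ ^ 2 - ‖c‖ ^ 2 = (‖z.1‖ - ‖c‖) * (‖z.1‖ + ‖c‖) := by ring
      rw [e, abs_mul]
      refine mul_le_mul ((abs_norm_sub_norm_le _ _).trans h4) ?_ (abs_nonneg _) (by positivity)
      rw [abs_of_nonneg (by positivity)]
      linarith
    have h11 : z.2 - 2 * inner ℝ (0 : E m) z.1 - ‖c‖ ^ 2 =
        (z.2 - ‖z.1‖ ^ 2) + (‖z.1‖ ^ 2 - ‖c‖ ^ 2) := by
      rw [inner_zero_left]
      ring
    rw [h11]
    refine (abs_add_le _ _).trans ((add_le_add h5 h10).trans (le_of_eq ?_))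
    rw [hDd]
    ring) x
  refine h1.trans ?_
  rw [ENNReal.ofReal_mul' (by positivity), mul_assoc]
  refine mul_le_mul_right ?_ _
  refine cv_scale _ _ _ _ ENNReal.ofReal_ne_top (fun z => ?_) x
  exact gw_scale m (m + 2) S D hS0 hD 0 z

end Pool.Agent.H1.BD
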